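import Pool.Agent.W142.TF.Stm3
import Pool.Agent.W975.FN.Trg
import Pool.Agent.W505.FN.NullS

set_option autoImplicit false
open Filter Topology Finset
open scoped BoundedContinuousFunction

/-! Project TF: residue classes and the choice of a class. -/

namespace Pool.Agent.W681.TF

open Pool.Agent.W634.BQ Pool.Agent.W505.BQ Pool.Agent.W27.FB Pool.Agent.W142.TF

theorem cls_mem {q : ℕ} {r a : ℤ} (h : (q : ℤ) ∣ a - r) : cls q r a = 1 := ind_mem h

theorem cls_notMem {q : ℕ} {r a : ℤ} (h : ¬ (q : ℤ) ∣ a - r) : cls q r a = 0 := ind_notMem h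

theorem cls_01 (q : ℕ) (r a : ℤ) : 0 ≤ cls q r a ∧ cls q r a ≤ 1 := ind_01 _ a

/-- the root of unity -/
noncomputable def ze (q : ℕ) : Circle := Circle.exp (2 * Real.pi / q)

theorem ze_prim (q : ℕ) (hq : 1 ≤ q) : IsPrimitiveRoot ((ze q : Circle) : ℂ) q := by
  have h := Complex.isPrimitiveRoot_exp q (by omega)
  have h2 : ((ze q : Circle) : ℂ) = Complex.exp (2 * Real.pi * Complex.I / q) := by
    unfold ze
    rw [Circle.coe_exp]
    congr 1
    push_cast
    ring
  rw [h2]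
  exact h

theorem cls_eq (q : ℕ) (r : ℤ) (hq : 1 ≤ q) :
    co (cls q r) = ∑ k ∈ range q, ((1 / (q : ℂ)) * (((ze q ^ (-(k * r : ℤ)) : Circle)) : ℂ)) •
      chr (ze q ^ k) := by
  have hq0 : (q : ℂ) ≠ 0 := by
    have : q ≠ 0 := by omega
    exact_mod_cast this
  ext a
  rw [co_apply]
  have h0 : ∀ (s : Finset ℕ) (F : ℕ → (ℤ →ᵇ ℂ)), (∑ k ∈ s, F k) a = ∑ k ∈ s, F k a := by
    intro s F
    induction s using Finset.induction_on with
    | empty => simp
    | insert i s hi ih => rw [sum_insert hi, sum_insert hi, BoundedContinuousFunction.coe_add,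
        Pi.add_apply, ih]
  rw [h0]
  have hz := ze_prim q hq
  obtain ⟨w, hw⟩ : ∃ w : ℂ, w = ((ze q : Circle) : ℂ) ^ (a - r) := ⟨_, rfl⟩
  have h1 : ∀ k ∈ range q, (((1 / (q : ℂ)) * (((ze q ^ (-(k * r : ℤ)) : Circle)) : ℂ)) •
      chr (ze q ^ k)) a = (1 / (q : ℂ)) * w ^ k := by
    intro k _
    show ((1 / (q : ℂ)) * (((ze q ^ (-(k * r : ℤ)) : Circle)) : ℂ)) *
      (((ze q ^ k) ^ a : Circle) : ℂ) = _
    rw [mul_assoc]
    congr 1
    rw [← Circle.coe_mul, hw, ← zpow_natCast, ← zpow_mul, ← zpow_natCast, ← zpow_mul, ← zpow_add,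
      Circle.coe_zpow]
    congr 1
    ring
  rw [sum_congr rfl h1, ← mul_sum]
  by_cases hd : (q : ℤ) ∣ a - r
  · have hw1 : w = 1 := by
      rw [hw]
      exact (hz.zpow_eq_one_iff_dvd _).2 hd
    rw [hw1, cls_mem hd]
    simp only [one_pow, sum_const, card_range, nsmul_eq_mul, mul_one]
    rw [one_div, inv_mul_cancel₀ hq0]
    norm_num
  · have hw1 : w ≠ 1 := by
      rw [hw]
      intro h
      exact hd ((hz.zpow_eq_one_iff_dvd _).1 h)
    have hwq : w ^ q = 1 := by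
      rw [hw, ← zpow_natCast, ← zpow_mul, mul_comm, zpow_mul, zpow_natCast, hz.pow_eq_one, one_zpow]
    rw [geom_sum_eq hw1, hwq, sub_self, zero_div, mul_zero, cls_notMem hd]
    norm_num

theorem tr01_cls (q : ℕ) (r : ℤ) (hq : 1 ≤ q) : Tr01 (cls q r) := by
  refine ⟨?_, cls_01 q r⟩
  rw [cls_eq q r hq]
  refine Submodule.sum_mem _ (fun k _ => Submodule.smul_mem _ _ (Submodule.subset_span ⟨_, rfl⟩))

theorem sh_cls (q : ℕ) (r k : ℤ) : sh k (cls q r) = cls q (r - k) := by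
  ext a
  rw [sh_apply]
  by_cases h : (q : ℤ) ∣ a + k - r
  · rw [cls_mem h, cls_mem (by have e : a - (r - k) = a + k - r := by ring
                               rw [e]; exact h)]
  · rw [cls_notMem h, cls_notMem (by have e : a - (r - k) = a + k - r := by ring
                                     rw [e]; exact h)]

theorem sum_cls (q : ℕ) (hq : 1 ≤ q) (a : ℤ) : ∑ k ∈ range q, cls q (k : ℤ) a = 1 := by
  have hq0 : (0 : ℤ) < q := by exact_mod_cast hq
  have hn := Int.emod_nonneg a hq0.ne'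
  have hl := Int.emod_lt_of_pos a hq0
  have hd : (q : ℤ) ∣ a - a % q := Int.dvd_self_sub_emod
  rw [sum_eq_single (a % q).toNat]
  · refine cls_mem ?_
    rw [Int.toNat_of_nonneg hn]
    exact hd
  · intro b hb hne
    refine cls_notMem (fun h => hne ?_)
    have hb' : (b : ℤ) < q := by exact_mod_cast mem_range.1 hb
    have h2 : (q : ℤ) ∣ (b : ℤ) - a % q := by
      have e : (b : ℤ) - a % q = (a - a % q) - (a - b) := by ring
      rw [e]
      exact dvd_sub hd h
    have h3 : (b : ℤ) - a % q = 0 := by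
      refine Int.eq_zero_of_abs_lt_dvd h2 ?_
      rw [abs_lt]
      constructor <;> omega
    omega
  · intro h
    exact absurd (mem_range.2 (by omega)) h

theorem sum_cls' (q : ℕ) (hq : 1 ≤ q) : ∑ k ∈ range q, cls q (k : ℤ) = 1 := by
  ext a
  have h0 : ∀ (s : Finset ℕ) (F : ℕ → (ℤ →ᵇ ℝ)), (∑ k ∈ s, F k) a = ∑ k ∈ s, F k a := by
    intro s F
    induction s using Finset.induction_on with
    | empty => simp
    | insert i s hi ih => rw [sum_insert hi, sum_insert hi, BoundedContinuousFunction.coe_add,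
        Pi.add_apply, ih]
  rw [h0, sum_cls q hq]
  rfl

theorem m_cls {m : (ℤ →ᵇ ℝ) →ₗ[ℝ] ℝ} (hm : IsMean m) (q : ℕ) (r : ℤ) (hq : 1 ≤ q) :
    m (cls q r) = 1 / q := by
  have h1 : ∀ s : ℤ, m (cls q s) = m (cls q r) := by
    intro s
    have h := m_sh hm (r - s) (cls q r)
    rw [sh_cls, sub_sub_cancel] at h
    exact h
  have h2 := congrArg m (sum_cls' q hq)
  have h3 : ∑ k ∈ range q, m (cls q (k : ℤ)) = ∑ k ∈ range q, m (cls q r) :=
    sum_congr rfl (fun k _ => h1 (k : ℤ))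
  rw [map_sum, hm.one, h3, sum_const, card_range, nsmul_eq_mul] at h2
  have hq0 : (q : ℝ) ≠ 0 := by
    have : q ≠ 0 := by omega
    exact_mod_cast this
  rw [eq_div_iff hq0, mul_comm]
  exact h2

theorem tor (P : ℤ →ᵇ ℝ) (hP : co P ∈ Trig) : ∃ q : ℕ, 1 ≤ q ∧ Tor P q := by
  obtain ⟨c, hc⟩ := (Finsupp.mem_span_range_iff_exists_finsupp).1 hP
  refine ⟨∏ θ ∈ c.support, (if orderOf θ = 0 then 1 else orderOf θ), ?_, c.support, c, ?_, ?_⟩
  · refine Nat.one_le_iff_ne_zero.2 (prod_ne_zero_iff.2 (fun θ _ => ?_))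
    split_ifs with h
    · exact one_ne_zero
    · exact h
  · intro n
    have h0 : ∀ (s : Finset Circle) (F : Circle → (ℤ →ᵇ ℂ)),
        (∑ k ∈ s, F k) n = ∑ k ∈ s, F k n := by
      classical
      intro s F
      induction s using Finset.induction_on with
      | empty => simp
      | insert i s hi ih => rw [sum_insert hi, sum_insert hi, BoundedContinuousFunction.coe_add,
          Pi.add_apply, ih]
    have h1 : co P n = (c.sum fun i a => a • chr i) n := by rw [hc]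
    rw [co_apply] at h1
    rw [h1]
    unfold Finsupp.sum
    rw [h0]
    exact sum_congr rfl (fun θ _ => rfl)
  · rintro θ hθ ⟨k, hk, hk1⟩
    have h1 : orderOf θ ≠ 0 := by
      have h2 := orderOf_dvd_of_pow_eq_one hk1
      intro h3
      rw [h3, zero_dvd_iff] at h2
      omega
    have h2 : (if orderOf θ = 0 then 1 else orderOf θ) ∣
        ∏ θ ∈ c.support, (if orderOf θ = 0 then 1 else orderOf θ) :=
      dvd_prod_of_mem _ hθ
    rw [if_neg h1] at h2
    exact orderOf_dvd_iff_pow_eq_one.1 h2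

theorem clss : S_cls := ⟨fun q r hq => tr01_cls q r hq, fun m hm q r hq => m_cls hm q r hq, tor⟩

theorem app_one {m : (ℤ →ᵇ ℝ) →ₗ[ℝ] ℝ} {V : Set ℤ} {P : ℤ →ᵇ ℝ} {ε : ℝ} (hA : App m V P ε)
    (b : ℤ →ᵇ ℝ) (hb : co b ∈ Trig) (hb1 : ∀ n, |b n| ≤ 1) : |m (b * (ind V - P))| ≤ ε := by
  have h1 := hA.2.2 b hb hb1 1 (fun n => by simp)
  by_contra hc
  push Not at hc
  have h2 : {a : ℤ | ε < |m (b * (ind V - P) * sh a 1)|} = Set.univ := by
    ext a
    have h3 : sh a (1 : ℤ →ᵇ ℝ) = 1 := by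
      ext n
      rw [sh_apply]
      rfl
    rw [Set.mem_ofPred_eq, h3, mul_one]
    exact ⟨fun _ => trivial, fun _ => hc⟩
  rw [h2] at h1
  exact Pool.Agent.W505.FN.nul.2.2.2.2.1 h1

theorem lev : S_lev := by
  intro m hm V P P' ε ε' ρ κ hκ hA hA' hρ hg q hq
  have hq0 : (0 : ℝ) < q := by exact_mod_cast hq
  have h1T : co (1 : ℤ →ᵇ ℝ) ∈ Trig := by
    have h : co (1 : ℤ →ᵇ ℝ) = 1 := by
      ext n
      simp
    rw [h]
    exact Pool.Agent.W975.FN.trg.1
  have hP : ρ - ε ≤ m P := by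
    have h1 := app_one hA 1 h1T (fun n => by simp)
    rw [one_mul, map_sub] at h1
    have h2 := (abs_le.1 h1).2
    linarith
  have hb : co (P' - P) ∈ Trig := by
    have h : co (P' - P) = co P' - co P := by
      ext n
      simp
    rw [h]
    exact Submodule.sub_mem _ hA'.1 hA.1
  have hb1 : ∀ n, |(P' - P) n| ≤ 1 := by
    intro n
    rw [BoundedContinuousFunction.coe_sub, Pi.sub_apply, abs_le]
    have h1 := hA.2.1 n
    have h2 := hA'.2.1 n
    constructor <;> linarith [h1.1, h1.2, h2.1, h2.2]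
  have hD : m ((P' - P) * (P' - P)) ≤ ε + ε' := by
    have h1 := (abs_le.1 (app_one hA (P' - P) hb hb1)).2
    have h2 := (abs_le.1 (app_one hA' (P' - P) hb hb1)).1
    have e : (P' - P) * (P' - P) = (P' - P) * (ind V - P) - (P' - P) * (ind V - P') := by ring
    rw [e, map_sub]
    linarith
  have hsum : ∀ F : ℤ →ᵇ ℝ, ∑ k ∈ range q, m (cls q (k : ℤ) * F) = m F := by
    intro F
    rw [← map_sum, ← sum_mul, sum_cls' q hq, one_mul]
  have hex : ∃ k ∈ range q, (ρ - ε - (ε + ε') / κ) / q ≤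
      m (cls q (k : ℤ) * P) - m (cls q (k : ℤ) * ((P' - P) * (P' - P))) / κ := by
    by_contra hc
    push Not at hc
    have h1 := sum_lt_sum_of_nonempty (nonempty_range_iff.2 (by omega)) hc
    rw [sum_sub_distrib, ← sum_div, hsum, hsum, sum_const, card_range, nsmul_eq_mul,
      mul_div_cancel₀ _ hq0.ne'] at h1
    have h2 : m ((P' - P) * (P' - P)) / κ ≤ (ε + ε') / κ := div_le_div_of_nonneg_right hD hκ.le
    linarith
  obtain ⟨k, _, hk⟩ := hex
  have hv : 0 ≤ m (cls q (k : ℤ) * ((P' - P) * (P' - P))) := by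
    refine hm.pos _ (fun n => ?_)
    simp only [BoundedContinuousFunction.coe_mul, Pi.mul_apply]
    exact mul_nonneg (cls_01 _ _ _).1 (mul_self_nonneg _)
  have hu : m (cls q (k : ℤ) * P) ≤ 1 / q := by
    rw [← m_cls hm q (k : ℤ) hq]
    refine m_mono hm (fun n => ?_)
    rw [BoundedContinuousFunction.coe_mul, Pi.mul_apply]
    exact mul_le_of_le_one_right (cls_01 _ _ _).1 (hA.2.1 n).2
  have hv' : 0 ≤ m (cls q (k : ℤ) * ((P' - P) * (P' - P))) / κ := div_nonneg hv hκ.le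
  refine ⟨(k : ℤ), by linarith, ?_⟩
  have hg' : 0 ≤ (ρ - ε - (ε + ε') / κ) / q := div_nonneg hg hq0.le
  have h3 : m (cls q (k : ℤ) * ((P' - P) * (P' - P))) / κ ≤ 1 / q := by linarith
  rw [div_le_iff₀ hκ] at h3
  calc m (cls q (k : ℤ) * ((P' - P) * (P' - P))) ≤ 1 / q * κ := h3
    _ = κ / q := by ring

end Pool.Agent.W681.TF
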